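import Pool.Agent.V1156.Cub.NoCrem
import Pool.Agent.V1156.Cub.Moeb

/-!
# A plane curve parameterizable by cubics which is not in the class `𝒮`

The curve is the rational sextic with the affine parametrization `(n ^ 4 + n, 2 n ^ 6 + 3 n ^ 3)`.
-/

set_option autoImplicit false

namespace Pool.Agent.Results.MP_87683a_ag.SexticNotInS

open MvPolynomial

variable {K : Type*} [Field K]

/-- `E` is the equation of a plane curve: an irreducible form in three variables. -/
def IsPlaneCurve (E : MvPolynomial (Fin 3) K) : Prop :=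
  Irreducible E ∧ ∃ d, E.IsHomogeneous d

/-- The points of the plane curve `E = 0`, given by all their vectors of homogeneous
coordinates. -/
def points (E : MvPolynomial (Fin 3) K) : Set (Fin 3 → K) :=
  {x | x ≠ 0 ∧ eval x E = 0}

/-- The curve `E = 0` is parameterizable by the pair of forms `F 0, F 1` of the same degree: the
rational map `ψ = (F 0 : F 1)` from the curve to the line is birational, i.e. there are forms
`u 0, u 1, u 2` in two variables, of the same degree and without common factor, such that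
`u = (u 0 : u 1 : u 2)` maps the line to the curve, `ψ ∘ u` is defined and is the identity of the
line, and `u ∘ ψ` is defined on the curve and is the identity of the curve. -/
def ParameterizableBy (E : MvPolynomial (Fin 3) K) (F : Fin 2 → MvPolynomial (Fin 3) K) : Prop :=
  ∃ (m : ℕ) (u : Fin 3 → MvPolynomial (Fin 2) K),
    (∀ i, (u i).IsHomogeneous m) ∧ (∀ p, (∀ i, p ∣ u i) → IsUnit p) ∧
    aeval u E = 0 ∧
    (∃ k, aeval u (F k) ≠ 0) ∧ aeval u (F 0) * X 1 = aeval u (F 1) * X 0 ∧
    (∃ i, ¬ E ∣ aeval F (u i)) ∧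
    ∀ i j, E ∣ aeval F (u i) * X j - aeval F (u j) * X i

/-- The curve `E = 0` is parameterizable by forms of degree `d`: by lines for `d = 1`, by conics
for `d = 2`, by cubics for `d = 3`. -/
def Parameterizable (E : MvPolynomial (Fin 3) K) (d : ℕ) : Prop :=
  ∃ F : Fin 2 → MvPolynomial (Fin 3) K,
    (∀ k, (F k).IsHomogeneous d) ∧ (∀ p, (∀ k, p ∣ F k) → IsUnit p) ∧ ParameterizableBy E F

/-- The curve `E = 0` is singular at the point `p`. -/
def SingularAt (E : MvPolynomial (Fin 3) K) (p : Fin 3 → K) : Prop :=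
  eval p E = 0 ∧ ∀ i, eval p (pderiv i E) = 0

/-- The rational maps `(F 0 : F 1 : F 2)` and `(G 0 : G 1 : G 2)` of the plane to itself are
birational and inverse to each other. -/
def AreInverse (F G : Fin 3 → MvPolynomial (Fin 3) K) : Prop :=
  (∃ P ≠ 0, ∀ i, aeval F (G i) = P * X i) ∧ (∃ Q ≠ 0, ∀ i, aeval G (F i) = Q * X i)

/-- The Zariski closure, in the projective plane, of the image of the curve `E₀ = 0` under the
rational map `(G 0 : G 1 : G 2)`: the points at which every form vanishes that vanishes at the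
images of all points of the curve `E₀ = 0` at which the map is defined. -/
def closureImage (G : Fin 3 → MvPolynomial (Fin 3) K) (E₀ : MvPolynomial (Fin 3) K) :
    Set (Fin 3 → K) :=
  {x | x ≠ 0 ∧ ∀ (n : ℕ) (H : MvPolynomial (Fin 3) K), H.IsHomogeneous n →
    (∀ y ∈ points E₀, (fun i => eval y (G i)) ≠ 0 → eval (fun i => eval y (G i)) H = 0) →
    eval x H = 0}

/-- The curve `E = 0` belongs to the class `𝒮`: it is the closure of `Λ(C₀)` where
`Λ = (G 0 : G 1 : G 2)` is a birational map (the `G i` are forms of the same degree without common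
factor) whose inverse is given by the three cubic forms `F 0, F 1, F 2`, and where `C₀`, the curve
`E₀ = 0`, is parameterizable by lines and singular at `(0 : 0 : 1)`. -/
def InS (E : MvPolynomial (Fin 3) K) : Prop :=
  ∃ (F G : Fin 3 → MvPolynomial (Fin 3) K) (e : ℕ) (E₀ : MvPolynomial (Fin 3) K),
    (∀ i, (F i).IsHomogeneous 3) ∧
    (∀ i, (G i).IsHomogeneous e) ∧ (∀ p, (∀ i, p ∣ G i) → IsUnit p) ∧ AreInverse F G ∧
    IsPlaneCurve E₀ ∧ Parameterizable E₀ 1 ∧ SingularAt E₀ ![0, 0, 1] ∧
    points E = closureImage G E₀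

open Pool.Agent.V1156.Cub

theorem sextic_parameterizable [IsAlgClosed K] (h2 : (2 : K) ≠ 0) :
    Parameterizable (sextic K) 3 := by
  refine ⟨![cA K, cB K], ?_, ?_, 6, par K, ?_, ?_, aeval_par_sextic, ⟨0, ?_⟩, ?_, ⟨2, ?_⟩, ?_⟩
  · intro k
    fin_cases k
    · exact cA_hom
    · exact cB_hom
  · intro p hp
    exact relPrime_cA_cB h2 (hp 0) (hp 1)
  · exact par_hom
  · intro p hp
    have h1 : p ∣ X 1 ^ 6 := hp 2
    have h3 : p ∣ 2 * X 0 ^ 6 + 3 * X 0 ^ 3 * X 1 ^ 3 := hp 1
    have h4 : IsRelPrime (X 1 : MvPolynomial (Fin 2) K) (2 * X 0 ^ 6 + 3 * X 0 ^ 3 * X 1 ^ 3) := by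
      rw [X_prime.irreducible.isRelPrime_iff_not_dvd]
      rintro ⟨r, hr⟩
      have := congrArg (eval ![1, 0]) hr
      simp at this
      exact h2 this
    exact (h4.pow_left (m := 6)) h1 h3
  · simp only [Matrix.cons_val_zero]
    rw [aeval_par_cA]
    exact mul_ne_zero (X_ne_zero 0) fac_ne_zero
  · simp only [Matrix.cons_val_zero, Matrix.cons_val_one]
    rw [aeval_par_cA, aeval_par_cB]
    ring
  · rintro ⟨r, hr⟩
    have := congrArg (aeval (par K)) hr
    rw [map_mul, aeval_par_sextic, zero_mul, comp_aeval_apply] at this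
    have e1 : par K 2 = X 1 ^ 6 := rfl
    rw [e1, map_pow, aeval_X] at this
    change aeval (par K) (cB K) ^ 6 = 0 at this
    rw [aeval_par_cB] at this
    exact pow_ne_zero 6 (mul_ne_zero (X_ne_zero 1) fac_ne_zero) this
  · intro i j
    apply sextic_dvd h2
    have e1 : ∀ i, aeval (par K) (aeval ![cA K, cB K] (par K i)) = fac K ^ 6 * par K i := by
      intro i
      rw [comp_aeval_apply]
      have : (fun k => aeval (par K) ((![cA K, cB K] : Fin 2 → MvPolynomial (Fin 3) K) k)) =
          fun k => fac K * X k := by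
        ext1 k
        fin_cases k
        · change aeval (par K) (cA K) = fac K * X 0
          rw [aeval_par_cA, mul_comm]
        · change aeval (par K) (cB K) = fac K * X 1
          rw [aeval_par_cB, mul_comm]
      rw [this, aeval_smul_hom (par_hom i)]
      simp
    rw [map_sub, map_mul, map_mul, e1, e1, aeval_X, aeval_X]
    ring

/-- A form of degree one in three variables is a combination of the variables. -/
theorem linear_form {L : MvPolynomial (Fin 3) K} (hL : L.IsHomogeneous 1) :
    ∃ a : Fin 3 → K, L = ∑ i, C (a i) * X i := by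
  have h1 : L ∈ homogeneousSubmodule (Fin 3) K 1 := hL
  rw [homogeneousSubmodule_one_eq_span_X, Submodule.mem_span_range_iff_exists_fun] at h1
  obtain ⟨a, ha⟩ := h1
  refine ⟨a, ?_⟩
  rw [← ha]
  simp only [smul_eq_C_mul]

theorem eval_aeval' {σ τ : Type*} (y : τ → K) (G : σ → MvPolynomial τ K) (H : MvPolynomial σ K) :
    eval y (aeval G H) = eval (fun i => eval y (G i)) H := by
  have h1 : eval y (aeval G H) = aeval y (aeval G H) := by rw [aeval_eq_eval]
  rw [h1, comp_aeval_apply]
  simp only [aeval_eq_eval]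

theorem aeval_dvd_uh {H : MvPolynomial (Fin 3) K} (h : sextic K ∣ H) : aeval (uh K) H = 0 := by
  obtain ⟨r, rfl⟩ := h
  rw [map_mul, aeval_uh_sextic, zero_mul]

theorem sextic_not_inS [IsAlgClosed K] (h2 : (2 : K) ≠ 0) : ¬ InS (sextic K) := by
  rintro ⟨F, G, e, E₀, hF, hG, -, ⟨⟨P, hP0, hP⟩, Q, hQ0, hQ⟩, ⟨hE₀, d₀, hd₀⟩,
    ⟨L, hL, -, m, w, hw, -, hwE, -, -, ⟨i₀, hi₀⟩, hLw⟩, -, hpts⟩
  have : Infinite K := IsAlgClosed.instInfinite
  have hE := sextic_prime h2
  have hE₀p : Prime E₀ := hE₀.prime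
  -- Step A
  have hA : E₀ ∣ aeval G (sextic K) := by
    apply dvd_of_vanish hE₀
    intro y hy0 hy
    rw [eval_aeval']
    by_cases h0 : (fun i => eval y (G i)) = 0
    · rw [h0]
      simp [sextic]
    · have : (fun i => eval y (G i)) ∈ closureImage G E₀ := by
        refine ⟨h0, fun n H _ hH => hH y ⟨hy0, hy⟩ h0⟩
      rw [← hpts] at this
      exact this.2
  -- every form vanishing at all the `G y` is divisible by the equation of the sextic
  have hclos : ∀ (n : ℕ) (H : MvPolynomial (Fin 3) K), H.IsHomogeneous n →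
      (∀ y ∈ points E₀, eval y (aeval G H) = 0) → sextic K ∣ H := by
    intro n H hH hv
    apply dvd_of_vanish hE.irreducible
    intro x hx0 hx
    have : x ∈ closureImage G E₀ := by
      rw [← hpts]; exact ⟨hx0, hx⟩
    exact this.2 n H hH (fun y hy _ => by rw [← eval_aeval']; exact hv y hy)
  have hGF : ∀ (n : ℕ) (H : MvPolynomial (Fin 3) K), H.IsHomogeneous n →
      aeval G (aeval F H) = Q ^ n * H := by
    intro n H hH
    rw [comp_aeval_apply]
    simp only [hQ]
    rw [aeval_smul_hom hH]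
    simp
  -- Step B
  have hB : sextic K ∣ aeval F E₀ := by
    apply hclos (3 * d₀)
    · exact hd₀.aeval _ (fun i => hF i)
    · intro y hy
      rw [hGF d₀ E₀ hd₀, map_mul, hy.2, mul_zero]
  have hFne : ¬ ∀ i, sextic K ∣ F i := by
    intro h
    have h1 := eq_zero_of_dvd sextic_hom (sextic_ne_zero h2) (hF 0) (by norm_num) (h 0)
    have h3 := hQ 0
    rw [h1, map_zero] at h3
    exact mul_ne_zero hQ0 (X_ne_zero 0) h3.symm
  -- Step C
  have hC : ¬ E₀ ∣ Q := by
    rintro ⟨r, hr⟩
    apply hFne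
    intro i
    apply hclos 3 _ (hF i)
    intro y hy
    rw [hQ, hr, map_mul, map_mul, hy.2, zero_mul, zero_mul]
  -- Step D
  have hD : ¬ sextic K ∣ P := by
    intro hdvd
    obtain ⟨i, hi⟩ : ∃ i, G i ≠ 0 := by
      by_contra hne
      push Not at hne
      have := hP 0
      rw [hne 0, map_zero] at this
      exact mul_ne_zero hP0 (X_ne_zero 0) this.symm
    have h1 : aeval G P = Q ^ e := by
      apply mul_right_cancel₀ hi
      rw [← hGF e (G i) (hG i), hP, map_mul, aeval_X]
    have h3 : E₀ ∣ Q ^ e := by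
      rw [← h1]
      obtain ⟨r, hr⟩ := hdvd
      rw [hr, map_mul]
      exact hA.mul_right _
    exact hC (hE₀p.dvd_of_dvd_pow h3)
  -- Step E
  set U := uh K with hU
  have hU2 : U 2 = 1 := rfl
  set p := aeval U P with hp
  have hp0 : p ≠ 0 := by
    intro h
    have h1 : sextic K ∣ P * X 2 := by
      have h3 : (P * X 2).IsHomogeneous (3 * e) := by
        rw [← hP 2]
        exact (hG 2).aeval _ hF
      apply dvd_of_uh h2 h3
      rw [map_mul, ← hU, ← hp, h, zero_mul]
    rcases hE.dvd_or_dvd h1 with h3 | h3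
    · exact hD h3
    · exact X_ne_zero 2 (eq_zero_of_dvd sextic_hom (sextic_ne_zero h2) (isHomogeneous_X K 2)
        (by norm_num) h3)
  set f : Fin 3 → Polynomial K := fun i => aeval U (F i) with hf
  have hfF : ∀ H : MvPolynomial (Fin 3) K, aeval f H = aeval U (aeval F H) := by
    intro H
    rw [comp_aeval_apply]
  have hGf : ∀ i, aeval f (G i) = p * U i := by
    intro i
    rw [hfF, hP, map_mul, aeval_X]
  have hE₀f : ∀ H, E₀ ∣ H → aeval f H = 0 := by
    rintro H ⟨r, rfl⟩
    rw [map_mul, hfF E₀, aeval_dvd_uh hB, zero_mul]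
  set l : Fin 2 → Polynomial K := fun k => aeval f (L k) with hl
  set W : Fin 3 → Polynomial K := fun i => aeval l (w i) with hW
  have hWf : ∀ i, W i = aeval f (aeval L (w i)) := by
    intro i
    rw [comp_aeval_apply]
  have hWrel : ∀ i j, W i * f j = W j * f i := by
    intro i j
    have := hE₀f _ (hLw i j)
    rw [map_sub, map_mul, map_mul, aeval_X, aeval_X, ← hWf, ← hWf] at this
    exact sub_eq_zero.1 this
  have hW0 : W i₀ ≠ 0 := by
    intro h
    rw [hWf, hfF] at h
    have h1 : (aeval L (w i₀)).IsHomogeneous (1 * m) := (hw i₀).aeval _ hL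
    have h3 : (aeval F (aeval L (w i₀))).IsHomogeneous (3 * (1 * m)) := h1.aeval _ hF
    obtain ⟨r, hr⟩ := dvd_of_uh h2 h3 h
    have h4 : E₀ ∣ Q ^ (1 * m) * aeval L (w i₀) := by
      rw [← hGF _ _ h1, hr, map_mul]
      exact hA.mul_right _
    rcases hE₀p.dvd_or_dvd h4 with h5 | h5
    · exact hC (hE₀p.dvd_of_dvd_pow h5)
    · exact hi₀ h5
  have hf0 : f i₀ ≠ 0 := by
    intro h
    apply hFne
    intro j
    apply dvd_of_uh h2 (hF j)
    have := hWrel i₀ j
    rw [h, mul_zero] at this
    exact (mul_eq_zero.1 this).resolve_left hW0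
  have hkey : ∀ c : MvPolynomial (Fin 3) K, c.IsHomogeneous 3 →
      f i₀ ^ (e * 3) * aeval l (aeval w (aeval G c)) = W i₀ ^ (e * 3) * (p ^ 3 * aeval U c) := by
    intro c hc
    have h1 : (aeval G c).IsHomogeneous (e * 3) := hc.aeval _ hG
    have h3 : aeval l (aeval w (aeval G c)) = aeval W (aeval G c) := by
      rw [comp_aeval_apply]
    rw [h3, ← aeval_smul_hom h1, ← aeval_smul_hom hc]
    have h4 : (fun i => f i₀ * W i) = fun i => W i₀ * f i := by
      ext1 i
      rw [hWrel i₀ i, mul_comm]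
    rw [h4, aeval_smul_hom h1, comp_aeval_apply]
    congr 3
    ext1 i
    exact hGf i
  have hcB0 : aeval U (cB K) ≠ 0 := by
    rw [hU, uh_cB]
    intro h
    have := congrArg (Polynomial.eval 0) h
    simp at this
  have hfN : f i₀ ^ (e * 3) ≠ 0 := pow_ne_zero _ hf0
  have hl2 : l = ![l 0, l 1] := by
    ext1 k
    fin_cases k <;> rfl
  obtain ⟨α, β, γ, δ, q, hq0, hq₁, hq₂⟩ := moebius (l₀ := l 0) (l₁ := l 1)
    (b₀ := aeval w (aeval G (cA K))) (b₁ := aeval w (aeval G (cB K)))
    ((cA_hom.aeval _ hG).aeval _ hw) ((cB_hom.aeval _ hG).aeval _ hw)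
    (by
      rw [← hl2]
      apply mul_left_cancel₀ hfN
      rw [hkey _ cA_hom, hU, uh_cA_cB, ← hU]
      linear_combination (-Polynomial.X) * hkey _ (cB_hom (K := K)))
    (by
      rw [← hl2]
      intro h
      have := hkey _ (cB_hom (K := K))
      rw [h, mul_zero] at this
      exact mul_ne_zero (pow_ne_zero _ hW0) (mul_ne_zero (pow_ne_zero _ hp0) hcB0) this.symm)
  -- the two cubic forms
  have hlin : ∀ a b : K, (C a * L 0 + C b * L 1).IsHomogeneous 1 := fun a b =>
    ((hL 0).C_mul a).add ((hL 1).C_mul b)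
  have hlinU : ∀ a b : K, aeval U (aeval F (C a * L 0 + C b * L 1)) =
      Polynomial.C a * l 0 + Polynomial.C b * l 1 := by
    intro a b
    rw [← hfF, map_add, map_mul, map_mul, aeval_C, aeval_C]
    rfl
  set A := aeval F (C α * L 0 + C β * L 1) with hAdef
  set B := aeval F (C γ * L 0 + C δ * L 1) with hBdef
  have hAhom : A.IsHomogeneous 3 := (hlin α β).aeval _ hF
  have hBhom : B.IsHomogeneous 3 := (hlin γ δ).aeval _ hF
  have hAU : aeval U A = Polynomial.X * q := by rw [hAdef, hlinU, hq₁]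
  have hBU : aeval U B = q := by rw [hBdef, hlinU, hq₂]
  have hR : A * cB K = B * cA K := by
    have hRhom : (A * cB K - B * cA K).IsHomogeneous 6 := (hAhom.mul cB_hom).sub (hBhom.mul cA_hom)
    have hdvd : sextic K ∣ A * cB K - B * cA K := by
      apply dvd_of_uh h2 hRhom
      rw [← hU, map_sub, map_mul, map_mul, hAU, hBU, hU, uh_cA_cB]
      ring
    obtain ⟨c, hc⟩ := dvd_const sextic_hom hRhom hdvd
    have h1 := congrArg (eval ![0, -1, 2]) hc
    rw [map_mul, eval_sextic, eval_C] at h1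
    have h3 : c * -2 ^ 2 = 0 := by
      rw [← h1]
      simp [cA, cB]
    have h4 : c = 0 := by
      rcases mul_eq_zero.1 h3 with h | h
      · exact h
      · exact absurd (neg_eq_zero.1 h) (pow_ne_zero 2 h2)
    rw [h4, C_0, zero_mul] at hc
    exact sub_eq_zero.1 hc
  have hdvdA : cA K ∣ A := by
    apply (relPrime_cA_cB h2).dvd_of_dvd_mul_right
    exact ⟨B, by rw [hR, mul_comm]⟩
  obtain ⟨ρ, hρ⟩ := dvd_const cA_hom hAhom hdvdA
  have hcA0 : cA K ≠ 0 := by
    intro h
    have := congrArg (eval ![1, 0, 1]) h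
    simp [cA] at this
  have hρB : B = C ρ * cB K := by
    apply mul_right_cancel₀ hcA0
    rw [← hR, hρ]
    ring
  have hρ0 : ρ ≠ 0 := by
    rintro rfl
    rw [C_0, zero_mul] at hρB
    rw [hρB, map_zero] at hBU
    exact hq0 hBU.symm
  have hlast : ∀ (a b : K) (c : MvPolynomial (Fin 3) K), aeval F (C a * L 0 + C b * L 1) = C ρ * c →
      ∃ M : Fin 3 → K, c = ∑ i, C (M i) * F i := by
    intro a b c hc
    obtain ⟨M, hM⟩ := linear_form ((hlin a b).C_mul ρ⁻¹)
    refine ⟨M, ?_⟩
    have h1 := congrArg (aeval F) hM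
    rw [map_mul, hc, aeval_C, map_sum, algebraMap_eq, ← mul_assoc, ← C_mul, inv_mul_cancel₀ hρ0,
      C_1, one_mul] at h1
    rw [h1]
    apply Finset.sum_congr rfl
    intro i _
    rw [map_mul, aeval_C, aeval_X, algebraMap_eq]
  obtain ⟨M₀, hM₀⟩ := hlast α β _ hρ
  obtain ⟨M₁, hM₁⟩ := hlast γ δ _ hρB
  exact no_cremona h2 hF hQ0 hQ hM₀ hM₁

/-- **Theorem.** Over every algebraically closed field of characteristic different from two there
is a plane curve which is parameterizable by cubics and which does not belong to the class `𝒮`. -/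
theorem result (K : Type*) [Field K] [IsAlgClosed K] (h2 : (2 : K) ≠ 0) :
    ∃ E : MvPolynomial (Fin 3) K, IsPlaneCurve E ∧ Parameterizable E 3 ∧ ¬ InS E :=
  ⟨sextic K, ⟨(sextic_prime h2).irreducible, 6, sextic_hom⟩, sextic_parameterizable h2,
    sextic_not_inS h2⟩

end Pool.Agent.Results.MP_87683a_ag.SexticNotInS
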